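import Pool.Agent.Helper584_PR.Lang

set_option autoImplicit false
set_option linter.all false

open Set MeasureTheory Cardinal
open scoped ENNReal

namespace Pool.Agent.Helper584.PR

open Pool.Agent.Helper584.RM

/-- The event that the coins `t n`, `n ∈ F`, all show `v`. -/
def cyl {J : Type} (t : ℕ → J) (v : Bool) (F : Finset ℕ) : Set (J → Bool) :=
  {ω | ∀ n ∈ F, ω (t n) = v}

theorem measurableSet_coin {J : Type} (j : J) (v : Bool) :
    MeasurableSet {ω : J → Bool | ω j = v} := by
  have h : MeasurableSet ((fun ω : J → Bool => ω j) ⁻¹' {v}) :=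
    (measurable_pi_apply j) (measurableSet_singleton v)
  exact h

theorem measurableSet_cylF {J : Type} (t : ℕ → J) (v : Bool) (F : Finset ℕ) :
    MeasurableSet (cyl t v F) := by
  have : cyl t v F = ⋂ n ∈ F, {ω : J → Bool | ω (t n) = v} := by
    ext ω; simp [cyl]
  rw [this]
  exact Finset.measurableSet_biInter F fun n _ => measurableSet_coin (t n) v

theorem cm_coin {J : Type} {t : ℕ → J} (ht : Function.Injective t) (n : ℕ) (v : Bool) :
    cm J {ω | ω (t n) = v} = 2⁻¹ := by
  have h := cm_cyl (t := fun m => t (n + m)) (fun a b hab => by simpa using ht hab) [v]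
  simpa using h

theorem cm_cylF {J : Type} {t : ℕ → J} (ht : Function.Injective t) (v : Bool) (F : Finset ℕ) :
    cm J (cyl t v F) = 2⁻¹ ^ F.card := by
  classical
  induction F using Finset.induction_on with
  | empty => simp [cyl]
  | insert a F ha ih =>
    have h1 : cyl t v (insert a F) = {ω : J → Bool | ω (t a) = v} ∩ cyl t v F := by
      ext ω
      simp [cyl]
    rw [h1, cm_indep (measurableSet_coin _ _) (measurableSet_cylF _ _ _) (S := {t a})
      (T := t '' F), ih, cm_coin ht, Finset.card_insert_of_notMem ha, pow_succ, mul_comm]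
    · intro ω ω' h hω
      rw [mem_ofPred_eq, ← h _ rfl]; exact hω
    · intro ω ω' h hω n hn
      rw [← h _ ⟨n, hn, rfl⟩]; exact hω n hn
    · rw [Set.disjoint_left]
      rintro x hx ⟨n, hn, hnx⟩
      rw [mem_singleton_iff] at hx
      rw [hx] at hnx
      exact ha (ht hnx ▸ hn)

/-- For infinitely many events `β n` which do not depend on the coins `t n` it is impossible that
almost surely infinitely many of them occur and each time the coin shows `v`. -/
theorem null_coin {J : Type} {t : ℕ → J} (ht : Function.Injective t) (v : Bool) {S : Set J}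
    (hS : ∀ n, t n ∉ S) {β : ℕ → Set (J → Bool)} (hβ : ∀ n, MeasurableSet (β n))
    (hβS : ∀ n, Dep (β n) S) :
    cm J {ω | (∀ n, ∃ m, n ≤ m ∧ ω ∈ β m) ∧ ∀ n, ω ∈ β n → ω (t n) = v} = 0 := by
  classical
  -- the number of indices below `N`
  let G : ℕ → Finset ℕ → Set (J → Bool) := fun N F =>
    {ω | ∀ n ∈ Finset.range N, (ω ∈ β n ↔ n ∈ F)}
  have hG : ∀ N F, MeasurableSet (G N F) := by
    intro N F
    have : G N F = ⋂ n ∈ Finset.range N, {ω | ω ∈ β n ↔ n ∈ F} := by
      ext ω; simp [G]
    rw [this]
    refine Finset.measurableSet_biInter _ fun n _ => ?_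
    by_cases h : n ∈ F
    · have : {ω | ω ∈ β n ↔ n ∈ F} = β n := by ext ω; simp [h]
      rw [this]; exact hβ n
    · have : {ω | ω ∈ β n ↔ n ∈ F} = (β n)ᶜ := by ext ω; simp [h]
      rw [this]; exact (hβ n).compl
  have hGS : ∀ N F, Dep (G N F) S := by
    intro N F ω ω' h hω n hn
    rw [← (hβS n).iff h]
    exact hω n hn
  have hind : ∀ N F, cm J (G N F ∩ cyl t v F) = cm J (G N F) * 2⁻¹ ^ F.card := by
    intro N F
    rw [cm_indep (hG N F) (measurableSet_cylF t v F) (hGS N F) (T := range t), cm_cylF ht]
    · intro ω ω' h hω n hn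
      rw [← h _ ⟨n, rfl⟩]; exact hω n hn
    · rw [Set.disjoint_left]
      rintro x hx ⟨n, rfl⟩
      exact hS n hx
  set E : Set (J → Bool) := {ω | (∀ n, ∃ m, n ≤ m ∧ ω ∈ β m) ∧ ∀ n, ω ∈ β n → ω (t n) = v}
    with hE
  have key : ∀ k : ℕ, cm J E ≤ 2⁻¹ ^ k := by
    intro k
    let EN : ℕ → Set (J → Bool) := fun N =>
      {ω | k ≤ ((Finset.range N).filter fun n => ω ∈ β n).card ∧ ∀ n, ω ∈ β n → ω (t n) = v}
    have hmono : Monotone EN := by
      intro N N' hN ω hω
      refine ⟨hω.1.trans (Finset.card_le_card ?_), hω.2⟩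
      exact Finset.filter_subset_filter _ (Finset.range_mono hN)
    have hsub : E ⊆ ⋃ N, EN N := by
      intro ω hω
      have hinf : {n | ω ∈ β n}.Infinite := by
        rw [← Nat.frequently_atTop_iff_infinite, Filter.frequently_atTop]
        exact fun n => by
          obtain ⟨m, hm, hm'⟩ := hω.1 n
          exact ⟨m, hm, hm'⟩
      obtain ⟨F, hF, hFk⟩ := hinf.exists_subset_card_eq k
      obtain ⟨N, hN⟩ := F.exists_nat_subset_range
      refine mem_iUnion.2 ⟨N, ?_, hω.2⟩
      rw [← hFk]
      exact Finset.card_le_card fun n hn => Finset.mem_filter.2 ⟨hN hn, hF hn⟩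
    refine (measure_mono hsub).trans ?_
    rw [hmono.measure_iUnion]
    refine iSup_le fun N => ?_
    have hcov : EN N ⊆ ⋃ F ∈ (Finset.range N).powerset.filter fun F => k ≤ F.card,
        G N F ∩ cyl t v F := by
      intro ω hω
      refine mem_iUnion₂.2 ⟨(Finset.range N).filter fun n => ω ∈ β n, ?_, ?_, ?_⟩
      · rw [Finset.mem_filter, Finset.mem_powerset]
        exact ⟨Finset.filter_subset _ _, hω.1⟩
      · intro n hn
        rw [Finset.mem_filter]
        exact ⟨fun h => ⟨hn, h⟩, fun h => h.2⟩
      · intro n hn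
        exact hω.2 n (Finset.mem_filter.1 hn).2
    calc cm J (EN N) ≤ ∑ F ∈ (Finset.range N).powerset.filter fun F => k ≤ F.card,
          cm J (G N F ∩ cyl t v F) := (measure_mono hcov).trans (measure_biUnion_finset_le _ _)
      _ ≤ ∑ F ∈ (Finset.range N).powerset.filter fun F => k ≤ F.card,
          cm J (G N F) * 2⁻¹ ^ k := by
          refine Finset.sum_le_sum fun F hF => ?_
          rw [hind]
          refine mul_le_mul_right ?_ _
          exact pow_le_pow_right_of_le_one' (by norm_num) (Finset.mem_filter.1 hF).2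
      _ = (∑ F ∈ (Finset.range N).powerset.filter fun F => k ≤ F.card, cm J (G N F)) * 2⁻¹ ^ k := by
          rw [Finset.sum_mul]
      _ ≤ 1 * 2⁻¹ ^ k := by
          refine mul_le_mul_left ?_ _
          rw [← measure_biUnion_finset]
          · exact prob_le_one
          · intro F hF F' hF' hne
            rw [Function.onFun, Set.disjoint_left]
            intro ω hω hω'
            apply hne
            have hF1 := Finset.mem_powerset.1 (Finset.mem_filter.1 hF).1
            have hF2 := Finset.mem_powerset.1 (Finset.mem_filter.1 hF').1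
            ext n
            constructor
            · intro hn
              exact (hω' n (hF1 hn)).1 ((hω n (hF1 hn)).2 hn)
            · intro hn
              exact (hω n (hF2 hn)).1 ((hω' n (hF2 hn)).2 hn)
          · exact fun F _ => hG N F
      _ = 2⁻¹ ^ k := one_mul _
  refine le_antisymm (ENNReal.le_of_forall_pos_le_add fun ε hε _ => ?_) bot_le
  obtain ⟨m, hm⟩ := ENNReal.exists_inv_two_pow_lt (a := (ε : ℝ≥0∞)) (by exact_mod_cast hε.ne')
  rw [zero_add]
  exact (key m).trans hm.le

end Pool.Agent.Helper584.PR
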