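import Pool.Agent.Helper584_PR.Main

set_option autoImplicit false
set_option linter.all false

open Set MeasureTheory Cardinal
open scoped ENNReal

namespace Pool.Agent.Helper584.PR

open Pool.Agent.Helper584.RM

section

variable {Ω : Type} [MeasurableSpace Ω] {μ : Measure Ω} [IsFiniteMeasure μ]

/-- A random function is bounded by a function of the ground model up to a set of small measure. -/
theorem exists_bound {x : Ω → ℕ → ℕ} (hx : ∀ l, Measurable fun ω => x ω l) {ε : ℝ≥0∞} (hε : ε ≠ 0) :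
    ∃ h : ℕ → ℕ, μ {ω | ¬ ∀ l, x ω l ≤ h l} < ε := by
  have h1 : ∀ l : ℕ, ∀ δ : ℝ≥0∞, δ ≠ 0 → ∃ m : ℕ, μ {ω | m < x ω l} < δ := by
    intro l δ hδ
    have h2 : Filter.Tendsto (fun m : ℕ => μ {ω | m < x ω l}) Filter.atTop
        (nhds (μ (⋂ m : ℕ, {ω | m < x ω l}))) := by
      refine tendsto_measure_iInter_atTop (fun m => ?_) ?_ ⟨0, measure_ne_top _ _⟩
      · exact ((hx l) measurableSet_Ioi).nullMeasurableSet
      · intro a b hab ω hω
        exact lt_of_le_of_lt hab hω
    have h3 : (⋂ m : ℕ, {ω | m < x ω l}) = ∅ := by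
      ext ω
      simp only [mem_iInter, mem_ofPred_eq, mem_empty_iff_false, iff_false, not_forall, not_lt]
      exact ⟨x ω l, le_rfl⟩
    rw [h3, measure_empty] at h2
    obtain ⟨m, hm⟩ := (h2.eventually_lt_const (pos_iff_ne_zero.2 hδ)).exists
    exact ⟨m, hm⟩
  obtain ⟨δ, hδ, hδs⟩ := ENNReal.exists_pos_sum_of_countable' hε ℕ
  choose h hh using fun l => h1 l (δ l) (hδ l).ne'
  refine ⟨h, lt_of_le_of_lt ?_ hδs⟩
  have h4 : {ω | ¬ ∀ l, x ω l ≤ h l} = ⋃ l, {ω | h l < x ω l} := by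
    ext ω; simp
  rw [h4]
  exact (measure_iUnion_le _).trans (ENNReal.tsum_le_tsum fun l => (hh l).le)

end

/-- Adding random reals does not change the dominating number. -/
theorem force_domNumber {X J : Type} (hX : #X = domNumber) (p : Pos (cm J)) :
    p ∈ DomNumber (Pos (cm J)) X := by
  classical
  refine ⟨?_, ?_⟩
  · -- the ground model family is dominating
    obtain ⟨f, hf⟩ := exists_dominating hX
    refine mem_fex_of fun q _ => ⟨fun x n a => {_p | f x n = a}, q, le_rfl,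
      fun x => mem_isFun_const (f x) q, fun g => ?_⟩
    refine mem_fimp_of fun r _ hrg => mem_fex_of fun s hs => ?_
    choose N hN using fun l a => rep_meets (g l a)
    obtain ⟨x, hx, D, hD, hxD⟩ := exists_rv hN (down_isFun hs hrg)
    obtain ⟨h, hh⟩ := exists_bound (μ := cm J) hx s.2.2
    obtain ⟨i, k, hik⟩ := hf h
    have hpos : cm J {ω | ω ∈ s.1 ∧ ∀ l, x ω l ≤ h l} ≠ 0 := by
      intro h0
      refine absurd hh (not_lt.2 ?_)
      refine (measure_mono (t := {ω | ω ∈ s.1 ∧ ∀ l, x ω l ≤ h l} ∪ {ω | ¬ ∀ l, x ω l ≤ h l})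
        ?_).trans ((measure_union_le _ _).trans (by rw [h0, zero_add]))
      intro ω hω
      by_cases h1 : ∀ l, x ω l ≤ h l
      · exact Or.inl ⟨hω, h1⟩
      · exact Or.inr h1
    have hmeas : MeasurableSet {ω | ω ∈ s.1 ∧ ∀ l, x ω l ≤ h l} := by
      refine s.2.1.inter ?_
      have : {ω | ∀ l, x ω l ≤ h l} = ⋂ l, {ω | x ω l ≤ h l} := by ext ω; simp
      change MeasurableSet {ω | ∀ l, x ω l ≤ h l}
      rw [this]
      exact MeasurableSet.iInter fun l => (hx l) measurableSet_Iic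
    let t : Pos (cm J) := ⟨_, hmeas, hpos⟩
    have hts : t ≤ s := fun ω hω => hω.1
    refine ⟨i, t, hts, mem_fex_of fun t' ht' => ⟨k, t', le_rfl, fun n a b => ?_⟩⟩
    refine mem_fimp_of fun u hu hu' => ?_
    obtain ⟨hkn, hua, hub⟩ := hu'
    have hb : f i n = b := meets_const.1 hub
    have h1 : cm J (u.1 \ N n a) = 0 := ((hN n a).2 u).1 hua
    have h2 : ∃ ω ∈ u.1, ω ∈ N n a ∧ ω ∉ D := by
      by_contra hcon
      push Not at hcon
      apply u.2.2
      refine measure_mono_null ?_ (measure_union_null h1 hD)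
      intro ω hω
      by_cases h3 : ω ∈ N n a
      · exact Or.inr (hcon ω hω h3)
      · exact Or.inl ⟨hω, h3⟩
    obtain ⟨ω, hωu, hωN, hωD⟩ := h2
    have h3 : ω ∈ t.1 := ht' (hu hωu)
    have h4 : x ω n = a := (hxD ω ⟨h3.1, hωD⟩ n a).1 hωN
    rw [← h4, ← hb]
    exact (h3.2 n).trans (hik n hkn)
  · -- no smaller family is dominating
    intro Y F
    refine mem_fimp_of fun q _ hq => ?_
    choose N hN using fun y l a => rep_meets (F y l a)
    choose x hx D hD hxD using fun y => exists_rv (hN y) (hq.1 y)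
    choose h hh using fun (y : Y) (k : ℕ) => exists_bound (μ := cm J) (hx y)
      (ε := ((k : ℝ≥0∞) + 1)⁻¹) (ENNReal.inv_ne_zero.2 (by simp))
    have hdom : Dominating₀ fun (i : Y × ℕ) => h i.1 i.2 := by
      intro g
      have h1 := hq.2 fun n a => ({_p | g n = a} : Set (Pos (cm J)))
      obtain ⟨q1, hq1, h2⟩ := of_mem_fimp h1 (mem_isFun_const g q)
      obtain ⟨y, q2, hq2, h3⟩ := of_mem_fex h2
      obtain ⟨n₀, r, hr, h4⟩ := of_mem_fex h3
      have hrq : r ≤ q := hr.trans (hq2.trans hq1)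
      obtain ⟨k, hk⟩ := ENNReal.exists_inv_nat_lt r.2.2
      have hk' : ((k : ℝ≥0∞) + 1)⁻¹ < cm J r.1 :=
        lt_of_le_of_lt (ENNReal.inv_le_inv.2 le_self_add) hk
      -- the exceptional set
      let E : Set (J → Bool) := {ω | ¬ ∀ l, x y ω l ≤ h y k l} ∪ (D y ∪
        ⋃ n : ℕ, ⋃ b : ℕ, ⋃ (_ : cm J (r.1 ∩ {ω | x y ω n = b}) = 0), r.1 ∩ {ω | x y ω n = b})
      have hE : cm J E < cm J r.1 := by
        refine lt_of_le_of_lt (measure_union_le _ _) ?_
        have h5 : cm J (D y ∪ ⋃ n : ℕ, ⋃ b : ℕ, ⋃ (_ : cm J (r.1 ∩ {ω | x y ω n = b}) = 0),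
            r.1 ∩ {ω | x y ω n = b}) = 0 :=
          measure_union_null (hD y) (measure_iUnion_null fun n => measure_iUnion_null fun b =>
            measure_iUnion_null fun h => h)
        rw [h5, add_zero]
        exact (hh y k).trans hk'
      obtain ⟨ω, hωr, hωE⟩ : ∃ ω ∈ r.1, ω ∉ E := by
        by_contra hcon
        push Not at hcon
        exact absurd (measure_mono hcon) (not_le.2 hE)
      simp only [E, mem_union, not_or, mem_ofPred_eq, not_not, mem_iUnion, not_exists] at hωE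
      obtain ⟨h5, h6, h7⟩ := hωE
      refine ⟨(y, k), n₀, fun n hn => ?_⟩
      change g n ≤ h y k n
      have h8 : cm J (r.1 ∩ {ω | x y ω n = x y ω n}) ≠ 0 ∨ True := Or.inr trivial
      have h9 : cm J (r.1 ∩ {ω' | x y ω' n = x y ω n}) ≠ 0 := fun h10 =>
        h7 n (x y ω n) h10 ⟨hωr, rfl⟩
      let t : Pos (cm J) := ⟨_, r.2.1.inter ((hx y n) (measurableSet_singleton (x y ω n))), h9⟩
      have htr : t ≤ r := inter_subset_left
      have ht1 : t ∈ meets (F y n (x y ω n)) := by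
        refine ((hN y n _).2 t).2 (measure_mono_null ?_ (hD y))
        rintro ω' ⟨⟨h11, h12⟩, h13⟩
        by_contra hD'
        exact h13 ((hxD y ω' ⟨hrq h11, hD'⟩ n _).2 h12)
      have ht2 : t ∈ fand (fground (n₀ ≤ n)) (fand (meets ({_p | g n = g n} : Set (Pos (cm J))))
          (meets (F y n (x y ω n)))) := ⟨hn, meets_const.2 rfl, ht1⟩
      obtain ⟨_, _, h14⟩ := of_mem_fimp (down_fnot htr (h4 n (g n) (x y ω n))) ht2
      exact (show g n ≤ x y ω n from h14).trans (h5 n)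
    have hcard : #X ≤ #Y := by
      have h1 : #X ≤ #Y * ℵ₀ := by
        have := domNumber_le hdom
        rwa [mk_prod, lift_id, lift_id, mk_nat, ← hX] at this
      have h2 : ℵ₀ < #X := by rw [hX]; exact aleph0_lt_domNumber
      by_cases h3 : #Y ≤ ℵ₀
      · exact absurd (h1.trans ((mul_le_mul_left h3 _).trans aleph0_mul_aleph0.le)) (not_le.2 h2)
      · rwa [mul_eq_left (not_le.1 h3).le (not_le.1 h3).le aleph0_ne_zero] at h1
    obtain ⟨⟨j, hj⟩⟩ := hcard
    exact mem_fex_of fun r _ => ⟨_, r, le_rfl, mem_isInj_const hj r⟩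

end Pool.Agent.Helper584.PR
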