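import Pool.Agent.Helper584_RM.ForceCov

set_option autoImplicit false

open Set Cardinal Filter

namespace Pool.Agent.Helper584.PR

open Pool.Agent.Helper584.RM

/-! ### The statements, in the forcing language -/

section Statements

variable {P : Type} [Preorder P]

/-- The relation named by `J` is a one-to-one function from `X` to `Y`. -/
def IsInj {X Y : Type} (J : X → Y → Set P) : Set P :=
  fand (IsFun J)
    (fall fun x : X => fall fun x' : X => fall fun y : Y =>
      fimp (fand (meets (J x y)) (meets (J x' y))) (fground (x = x')))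

/-- `F` names a family, indexed by `X`, of functions from `ℕ` to `ℕ` which is dominating: for every
function `g` there is `x : X` with `g n ≤ F x n` for all but finitely many `n`. -/
def Dominating {X : Type} (F : X → ℕ → ℕ → Set P) : Set P :=
  fand (fall fun x : X => IsFun (F x))
    (fall fun g : ℕ → ℕ → Set P => fimp (IsFun g)
      (fex fun x : X => fex fun k : ℕ => fall fun n : ℕ => fall fun a : ℕ => fall fun b : ℕ =>
        fimp (fand (fground (k ≤ n)) (fand (meets (g n a)) (meets (F x n b))))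
          (fground (a ≤ b))))

variable (P)

/-- The dominating number of the extension is the cardinality of `X`: there is a dominating family
indexed by `X`, and whenever a dominating family is indexed by `Y` there is a one-to-one function
from `X` to `Y`. -/
def DomNumber (X : Type) : Set P :=
  fand (fex fun F : X → ℕ → ℕ → Set P => Dominating F)
    (fall fun Y : Type => fall fun F : Y → ℕ → ℕ → Set P =>
      fimp (Dominating F) (fex fun J : X → Y → Set P => IsInj J))

/-- The strong polarized relation for `X` and `ℕ`: for every colouring `c` of the pairs in `X × ℕ`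
with two colours (`c x n` says that the pair has the first colour) there are a set `A ⊆ X`, an
infinite set `B ⊆ ℕ` and a one-to-one function `J` from `X` to `A` (so that `A` has the cardinality
of `X`) such that all pairs in `A × B` have the first colour, or all have the second one. -/
def Polarized (X : Type) : Set P :=
  fall fun c : X → ℕ → Set P =>
    fex fun A : X → Set P => fex fun B : ℕ → Set P => fex fun J : X → X → Set P =>
      fand
        (fand (IsInj J) (fall fun x : X => fall fun y : X => fimp (meets (J x y)) (meets (A y))))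
        (fand (fall fun n : ℕ => fex fun m : ℕ => fand (fground (n ≤ m)) (meets (B m)))
          (fnot (fand
            (fnot (fall fun x : X => fall fun n : ℕ =>
              fimp (fand (meets (A x)) (meets (B n))) (meets (c x n))))
            (fnot (fall fun x : X => fall fun n : ℕ =>
              fimp (fand (meets (A x)) (meets (B n))) (fnot (meets (c x n))))))))

end Statements

/-! ### The same statements in the ordinary sense -/

section Plain

/-- The dominating number. -/
noncomputable def domNumber : Cardinal.{0} :=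
  sInf {κ | ∃ F : Set (ℕ → ℕ), #F = κ ∧ ∀ g : ℕ → ℕ, ∃ f ∈ F, ∀ᶠ n in atTop, g n ≤ f n}

/-- The strong polarized relation. -/
def Polarized₀ (X : Type) : Prop :=
  ∀ c : X → ℕ → Bool, ∃ (A : Set X) (B : Set ℕ) (i : Bool), #A = #X ∧ B.Infinite ∧
    ∀ x ∈ A, ∀ n ∈ B, c x n = i

/-- A family of functions indexed by `X` is dominating. -/
def Dominating₀ {X : Type} (F : X → ℕ → ℕ) : Prop :=
  ∀ g : ℕ → ℕ, ∃ x k, ∀ n, k ≤ n → g n ≤ F x n

theorem dominating₀_iff {X : Type} {F : X → ℕ → ℕ} :
    Dominating₀ F ↔ ∀ g : ℕ → ℕ, ∃ f ∈ range F, ∀ᶠ n in atTop, g n ≤ f n := by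
  unfold Dominating₀
  refine forall_congr' fun g => ?_
  constructor
  · rintro ⟨x, k, h⟩
    exact ⟨F x, ⟨x, rfl⟩, eventually_atTop.2 ⟨k, h⟩⟩
  · rintro ⟨_, ⟨x, rfl⟩, h⟩
    obtain ⟨k, hk⟩ := eventually_atTop.1 h
    exact ⟨x, k, hk⟩

theorem domNumber_set : ∃ F : Set (ℕ → ℕ), #F = domNumber ∧
    ∀ g : ℕ → ℕ, ∃ f ∈ F, ∀ᶠ n in atTop, g n ≤ f n := by
  have h : ({κ | ∃ F : Set (ℕ → ℕ), #F = κ ∧
      ∀ g : ℕ → ℕ, ∃ f ∈ F, ∀ᶠ n in atTop, g n ≤ f n} : Set Cardinal.{0}).Nonempty :=
    ⟨_, univ, rfl, fun g => ⟨g, mem_univ _, Eventually.of_forall fun _ => le_rfl⟩⟩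
  exact csInf_mem h

theorem exists_dominating {X : Type} (hX : #X = domNumber) : ∃ F : X → ℕ → ℕ, Dominating₀ F := by
  obtain ⟨S, hS, hS'⟩ := domNumber_set
  obtain ⟨e⟩ := Cardinal.eq.1 (hX.trans hS.symm)
  refine ⟨fun x => (e x).1, dominating₀_iff.2 fun g => ?_⟩
  obtain ⟨f, hf, hf'⟩ := hS' g
  exact ⟨f, ⟨e.symm ⟨f, hf⟩, by simp⟩, hf'⟩

theorem domNumber_le {Y : Type} {F : Y → ℕ → ℕ} (hF : Dominating₀ F) : domNumber ≤ #Y := by
  have h : domNumber ≤ #(range F) := by
    unfold domNumber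
    refine csInf_le' ?_
    exact ⟨range F, rfl, dominating₀_iff.1 hF⟩
  exact h.trans mk_range_le

theorem aleph0_lt_domNumber : ℵ₀ < domNumber := by
  rw [← not_le]
  intro h
  obtain ⟨S, hS, hS'⟩ := domNumber_set
  have hSc : S.Countable := by
    rw [← le_aleph0_iff_set_countable, hS]; exact h
  have hSn : S.Nonempty := by
    obtain ⟨f, hf, _⟩ := hS' 0
    exact ⟨f, hf⟩
  obtain ⟨e, he⟩ := hSc.exists_eq_range hSn
  obtain ⟨f, hf, hf'⟩ := hS' fun n => (∑ i ∈ Finset.range (n + 1), e i n) + 1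
  rw [he] at hf
  obtain ⟨k, rfl⟩ := hf
  obtain ⟨m, hm⟩ := eventually_atTop.1 hf'
  have h1 := hm (max m k) (le_max_left _ _)
  have h2 : e k (max m k) ≤ ∑ i ∈ Finset.range (max m k + 1), e i (max m k) :=
    Finset.single_le_sum (f := fun i => e i (max m k)) (fun _ _ => Nat.zero_le _)
      (Finset.mem_range.2 (Nat.lt_succ_of_le (le_max_right _ _)))
  omega

end Plain

/-! ### For the trivial forcing notion the sentences have their ordinary meaning -/

section Trivial

theorem u_isInj {X Y : Type} {J : X → Y → Set PUnit.{1}} :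
    PUnit.unit ∈ IsInj J ↔ ∃ f : X → Y, Function.Injective f ∧
      ∀ x y, PUnit.unit ∈ J x y ↔ f x = y := by
  unfold IsInj
  rw [u_fand, u_fall]
  simp only [u_fall, u_fimp, u_fand, u_meets, u_fground]
  constructor
  · rintro ⟨h1, h2⟩
    obtain ⟨f, hf⟩ := u_fun h1
    exact ⟨f, fun a b hab => h2 a b (f a) ⟨(hf _ _).2 rfl, (hf _ _).2 hab.symm⟩, hf⟩
  · rintro ⟨f, hf1, hf2⟩
    refine ⟨u_isFun.2 ⟨fun x => ⟨f x, (hf2 _ _).2 rfl⟩, fun x y y' h h' => ?_⟩,
      fun x x' y h => ?_⟩
    · rw [← (hf2 _ _).1 h, ← (hf2 _ _).1 h']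
    · exact hf1 (((hf2 _ _).1 h.1).trans ((hf2 _ _).1 h.2).symm)

theorem u_dominating {X : Type} {F : X → ℕ → ℕ → Set PUnit.{1}} :
    PUnit.unit ∈ Dominating F ↔ ∃ f : X → ℕ → ℕ, Dominating₀ f ∧
      ∀ x n a, PUnit.unit ∈ F x n a ↔ f x n = a := by
  unfold Dominating
  rw [u_fand, u_fall]
  simp only [u_fall, u_fimp, u_fand, u_meets, u_fground, u_fex]
  constructor
  · rintro ⟨h1, h2⟩
    choose f hf using fun x => u_fun (h1 x)
    refine ⟨f, fun g => ?_, hf⟩
    obtain ⟨x, k, h⟩ := h2 (fun n a => {_p | g n = a})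
      (u_isFun.2 ⟨fun n => ⟨g n, rfl⟩, fun n a b h h' => h.symm.trans h'⟩)
    exact ⟨x, k, fun n hn => h n (g n) (f x n) ⟨hn, rfl, (hf _ _ _).2 rfl⟩⟩
  · rintro ⟨f, hf1, hf2⟩
    refine ⟨fun x => u_isFun.2 ⟨fun n => ⟨f x n, (hf2 _ _ _).2 rfl⟩, fun n a b h h' => ?_⟩,
      fun G hG => ?_⟩
    · rw [← (hf2 _ _ _).1 h, ← (hf2 _ _ _).1 h']
    · obtain ⟨g, hg⟩ := u_fun hG
      obtain ⟨x, k, h⟩ := hf1 g
      refine ⟨x, k, fun n a b hab => ?_⟩
      rw [← (hg _ _).1 hab.2.1, ← (hf2 _ _ _).1 hab.2.2]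
      exact h n hab.1

/-- Over the one-point forcing notion `DomNumber` says that the dominating number is `#X`. -/
theorem u_domNumber {X : Type} : PUnit.unit ∈ DomNumber PUnit.{1} X ↔ #X = domNumber := by
  unfold DomNumber
  rw [u_fand]
  simp only [u_fall, u_fimp, u_fex]
  constructor
  · rintro ⟨⟨F, hF⟩, h2⟩
    obtain ⟨f, hf, _⟩ := u_dominating.1 hF
    refine le_antisymm ?_ (domNumber_le hf)
    obtain ⟨S, hS, hS'⟩ := domNumber_set
    have hd : Dominating₀ fun s : S => s.1 := dominating₀_iff.2 (by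
      rw [Subtype.range_coe]; exact hS')
    obtain ⟨J, hJ⟩ := h2 S (fun s n a => {_p | s.1 n = a})
      (u_dominating.2 ⟨fun s => s.1, hd, fun _ _ _ => Iff.rfl⟩)
    obtain ⟨j, hj, _⟩ := u_isInj.1 hJ
    rw [← hS]
    exact mk_le_of_injective hj
  · intro hX
    obtain ⟨f, hf⟩ := exists_dominating hX
    refine ⟨⟨fun x n a => {_p | f x n = a}, u_dominating.2 ⟨f, hf, fun _ _ _ => Iff.rfl⟩⟩, ?_⟩
    intro Y F hF
    obtain ⟨f', hf', _⟩ := u_dominating.1 hF
    obtain ⟨⟨j, hj⟩⟩ := (hX.le.trans (domNumber_le hf') : #X ≤ #Y)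
    exact ⟨fun x y => {_p | j x = y}, u_isInj.2 ⟨j, hj, fun _ _ => Iff.rfl⟩⟩

/-- Over the one-point forcing notion `Polarized` is the strong polarized relation. -/
theorem u_polarized {X : Type} : PUnit.unit ∈ Polarized PUnit.{1} X ↔ Polarized₀ X := by
  classical
  unfold Polarized Polarized₀
  simp only [u_fall, u_fimp, u_fex, u_fand, u_meets, u_fground, u_fnot]
  constructor
  · intro h c
    obtain ⟨A, B, J, ⟨hJ, hJA⟩, hB, h2⟩ := h fun x n => {_p | c x n = true}
    obtain ⟨j, hj, hj'⟩ := u_isInj.1 hJ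
    have hA : #{x | PUnit.unit ∈ A x} = #X := by
      refine le_antisymm (mk_set_le _) ?_
      refine mk_le_of_injective (f := fun x => (⟨j x, hJA x (j x) ((hj' _ _).2 rfl)⟩ :
        {x | PUnit.unit ∈ A x})) fun a b hab => hj (congrArg Subtype.val hab)
    have hBi : {n | PUnit.unit ∈ B n}.Infinite := by
      rw [Nat.frequently_atTop_iff_infinite.symm, frequently_atTop]
      intro n
      obtain ⟨m, hm, hm'⟩ := hB n
      exact ⟨m, hm, hm'⟩
    by_cases h3 : ∀ x n, PUnit.unit ∈ A x ∧ PUnit.unit ∈ B n → PUnit.unit ∈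
        ({_p | c x n = true} : Set PUnit.{1})
    · exact ⟨_, _, true, hA, hBi, fun x hx n hn => h3 x n ⟨hx, hn⟩⟩
    · have h4 : ∀ x n, PUnit.unit ∈ A x ∧ PUnit.unit ∈ B n → ¬ PUnit.unit ∈
          ({_p | c x n = true} : Set PUnit.{1}) := by
        by_contra hcon
        exact h2 ⟨h3, hcon⟩
      exact ⟨_, _, false, hA, hBi, fun x hx n hn => by
        have := h4 x n ⟨hx, hn⟩
        exact Bool.eq_false_iff.2 this⟩
  · intro h c
    obtain ⟨A, B, i, hA, hB, h1⟩ := h fun x n => decide (PUnit.unit ∈ c x n)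
    obtain ⟨e⟩ := Cardinal.eq.1 hA
    refine ⟨fun x => {_p | x ∈ A}, fun n => {_p | n ∈ B}, fun x y => {_p | (e.symm x).1 = y},
      ⟨u_isInj.2 ⟨fun x => (e.symm x).1, fun a b hab => e.symm.injective (Subtype.ext hab),
        fun _ _ => Iff.rfl⟩, ?_⟩, ?_, ?_⟩
    · rintro x y hxy
      change y ∈ A
      rw [← (show (e.symm x).1 = y from hxy)]
      exact (e.symm x).2
    · intro n
      obtain ⟨m, hm, hm'⟩ := frequently_atTop.1 (Nat.frequently_atTop_iff_infinite.2 hB) n
      exact ⟨m, hm, hm'⟩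
    · rintro ⟨h2, h3⟩
      cases i with
      | true =>
        refine h2 fun x n hxn => ?_
        have := h1 x hxn.1 n hxn.2
        simpa using this
      | false =>
        refine h3 fun x n hxn => ?_
        have := h1 x hxn.1 n hxn.2
        simpa using this

end Trivial

end Pool.Agent.Helper584.PR
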