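import Pool.Agent.Helper584_PR.Coin

set_option autoImplicit false
set_option linter.all false

open Set MeasureTheory Cardinal
open scoped ENNReal

namespace Pool.Agent.Helper584.PR

open Pool.Agent.Helper584.RM

section Down

variable {P : Type} [Preorder P]

theorem down_fnot {φ : Set P} {p q : P} (h : q ≤ p) (hp : p ∈ fnot φ) : q ∈ fnot φ :=
  fun r hr => hp r (hr.trans h)

theorem down_meets {N : Set P} {p q : P} (h : q ≤ p) (hp : p ∈ meets N) : q ∈ meets N :=
  fun r hr => hp r (hr.trans h)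

theorem down_isFun {X Y : Type} {J : X → Y → Set P} {p q : P} (h : q ≤ p) (hp : p ∈ IsFun J) :
    q ∈ IsFun J :=
  ⟨fun x => down_fnot h (hp.1 x), fun x y y' => down_fnot h (hp.2 x y y')⟩

theorem down_isInj {X Y : Type} {J : X → Y → Set P} {p q : P} (h : q ≤ p) (hp : p ∈ IsInj J) :
    q ∈ IsInj J :=
  ⟨down_isFun h hp.1, fun x x' y => down_fnot h (hp.2 x x' y)⟩

theorem mem_isInj_const {X Y : Type} {f : X → Y} (hf : Function.Injective f) (p : P) :
    p ∈ IsInj (fun a b => ({_p | f a = b} : Set P)) := by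
  refine ⟨mem_isFun_const f p, fun x x' y => ?_⟩
  refine mem_fimp_of fun q _ h => ?_
  have h1 := meets_const.1 h.1
  have h2 := meets_const.1 h.2
  exact hf (h1.trans h2.symm)

end Down

/-- After adding at least `#Z` random reals, `Z` uncountable, the strong polarized relation fails
for `Z` and `ℕ`. -/
theorem force_not_polarized {Z Λ : Type} (hZ : ℵ₀ < #Z) (hΛ : #Z ≤ #Λ) (p : Pos (cm (Λ × ℕ))) :
    p ∈ fnot (Polarized (Pos (cm (Λ × ℕ))) Z) := by
  classical
  intro q _ hq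
  obtain ⟨⟨ι, hι⟩⟩ := hΛ
  -- the colouring given by the random reals
  have h0 := hq fun z n => {r : Pos (cm (Λ × ℕ)) | r.1 ⊆ {ω | ω (ι z, n) = true}}
  obtain ⟨A, q1, hq1, h1⟩ := of_mem_fex h0
  obtain ⟨B, q2, hq2, h2⟩ := of_mem_fex h1
  obtain ⟨J, r, hr, ⟨hJ, hJA⟩, hB, hor⟩ := of_mem_fex h2
  clear h0 h1 h2
  have hc : ∀ z n, Rep (meets {s : Pos (cm (Λ × ℕ)) | s.1 ⊆ {ω | ω (ι z, n) = true}})
      {ω | ω (ι z, n) = true} := fun z n => rep_meets_of (measurableSet_coin _ _)
  choose α hα using fun z => rep_meets (A z)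
  choose β hβ using fun n => rep_meets (B n)
  choose S hS hS' using fun n => exists_dep (hβ n).1
  -- the set of exceptional `z`
  let Z₀ : Set Z := {z | ∃ n, (ι z, n) ∈ ⋃ m, S m}
  have hZ₀ : Z₀.Countable := by
    have h1 : (⋃ m, S m).Countable := countable_iUnion hS
    have h2 : (ι ⁻¹' (Prod.fst '' ⋃ m, S m)).Countable := (h1.image _).preimage_of_injOn hι.injOn
    refine h2.mono ?_
    rintro z ⟨n, hn⟩
    exact ⟨(ι z, n), hn, rfl⟩
  -- outside the exceptional set nothing is in `A`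
  have hA : ∀ z ∉ Z₀, ∀ s ≤ r, s ∉ meets (A z) := by
    intro z hz s hs hsA
    have hex : ∃ (s' : Pos (cm (Λ × ℕ))) (v : Bool), s' ≤ s ∧ ∀ n,
        cm (Λ × ℕ) (s'.1 \ ((α z ∩ β n)ᶜ ∪ {ω | ω (ι z, n) = v})) = 0 := by
      have h1 := hor s hs
      by_cases hφ : s ∈ fnot (fall fun x : Z => fall fun n : ℕ => fimp (fand (meets (A x))
          (meets (B n))) (meets {s : Pos (cm (Λ × ℕ)) | s.1 ⊆ {ω | ω (ι x, n) = true}}))
      · have h2 : ¬ s ∈ fnot (fall fun x : Z => fall fun n : ℕ => fimp (fand (meets (A x))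
          (meets (B n))) (fnot (meets {s : Pos (cm (Λ × ℕ)) | s.1 ⊆ {ω | ω (ι x, n) = true}}))) :=
          fun h => h1 ⟨hφ, h⟩
        obtain ⟨s', hs', h3⟩ : ∃ s' ≤ s, s' ∈ (fall fun x : Z => fall fun n : ℕ =>
          fimp (fand (meets (A x)) (meets (B n)))
          (fnot (meets {s : Pos (cm (Λ × ℕ)) | s.1 ⊆ {ω | ω (ι x, n) = true}}))) := by
          by_contra hcon
          push Not at hcon
          exact h2 hcon
        refine ⟨s', false, hs', fun n => ?_⟩
        have h4 := ((rep_fimp (rep_fand (hα z) (hβ n)) (rep_fnot (hc z n))).2 s').1 (h3 z n)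
        have h5 : {ω : Λ × ℕ → Bool | ω (ι z, n) = true}ᶜ = {ω | ω (ι z, n) = false} := by
          ext ω; simp
        rw [h5] at h4
        exact h4
      · obtain ⟨s', hs', h3⟩ : ∃ s' ≤ s, s' ∈ (fall fun x : Z => fall fun n : ℕ =>
          fimp (fand (meets (A x)) (meets (B n)))
          (meets {s : Pos (cm (Λ × ℕ)) | s.1 ⊆ {ω | ω (ι x, n) = true}})) := by
          by_contra hcon
          push Not at hcon
          exact hφ hcon
        exact ⟨s', true, hs', fun n =>
          ((rep_fimp (rep_fand (hα z) (hβ n)) (hc z n)).2 s').1 (h3 z n)⟩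
    obtain ⟨s', v, hs', h3⟩ := hex
    have h4 : cm (Λ × ℕ) (s'.1 \ α z) = 0 := ((hα z).2 s').1 (down_meets hs' hsA)
    have h5 : ∀ n, cm (Λ × ℕ) (s'.1 \ ⋃ m : {m // n ≤ m}, β m.1) = 0 := by
      intro n
      have h6 := ((rep_fex fun m : ℕ => rep_fand (rep_fground (μ := cm (Λ × ℕ)) (n ≤ m))
        (hβ m)).2 s').1 (down_fnot (hs'.trans hs) (hB n))
      refine measure_mono_null ?_ h6
      intro ω hω
      refine ⟨hω.1, fun h => hω.2 ?_⟩
      obtain ⟨m, hm1, hm2⟩ := mem_iUnion.1 h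
      exact mem_iUnion.2 ⟨⟨m, hm1⟩, hm2⟩
    apply s'.2.2
    have h7 := null_coin (t := fun n => (ι z, n)) (fun a b hab => (Prod.ext_iff.1 hab).2) v
      (S := ⋃ m, S m) (fun n hn => hz ⟨n, hn⟩) (fun n => (hβ n).1)
      (fun n => (hS' n).mono (subset_iUnion S n))
    refine measure_mono_null ?_ (measure_union_null h7 (measure_union_null h4
      (measure_union_null (measure_iUnion_null h5) (measure_iUnion_null h3))))
    intro ω hω
    by_cases hω1 : ω ∈ α z
    · by_cases hω2 : ∀ n, ω ∈ ⋃ m : {m // n ≤ m}, β m.1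
      · by_cases hω3 : ∀ n, ω ∈ (α z ∩ β n)ᶜ ∪ {ω | ω (ι z, n) = v}
        · left
          refine ⟨fun n => ?_, fun n hn => ?_⟩
          · obtain ⟨m, hm⟩ := mem_iUnion.1 (hω2 n)
            exact ⟨m.1, m.2, hm⟩
          · rcases hω3 n with h | h
            · exact absurd ⟨hω1, hn⟩ h
            · exact h
        · push Not at hω3
          obtain ⟨n, hn⟩ := hω3
          exact Or.inr (Or.inr (Or.inr (mem_iUnion.2 ⟨n, hω, hn⟩)))
      · push Not at hω2
        obtain ⟨n, hn⟩ := hω2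
        exact Or.inr (Or.inr (Or.inl (mem_iUnion.2 ⟨n, hω, hn⟩)))
    · exact Or.inr (Or.inl ⟨hω, hω1⟩)
  -- the values of the one-to-one function
  have hval : ∀ z : Z, ∃ y ∈ Z₀, ∃ s ≤ r, s ∈ meets (J z y) := by
    intro z
    obtain ⟨y, s, hs, hsy⟩ := of_mem_fex (hJ.1.1 z)
    obtain ⟨s', hs', hs'A⟩ := of_mem_fimp (down_fnot hs (hJA z y)) hsy
    refine ⟨y, ?_, s, hs, hsy⟩
    by_contra hy
    exact hA y hy s' (hs'.trans hs) hs'A
  choose y hy s hs hsy using hval
  have hfib : ∀ y₀ : Z, {z | y z = y₀}.Countable := by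
    intro y₀
    have h1 := Measure.countable_meas_pos_of_disjoint_iUnion₀ (μ := cm (Λ × ℕ))
      (As := fun z : {z | y z = y₀} => (s z.1).1) (fun z => (s z.1).2.1.nullMeasurableSet) ?_
    · have h2 : {z : {z | y z = y₀} | 0 < cm (Λ × ℕ) (s z.1).1} = Set.univ := by
        ext z
        simp only [mem_ofPred_eq, mem_univ, iff_true]
        exact pos_iff_ne_zero.2 (s z.1).2.2
      rw [h2, countable_univ_iff] at h1
      exact h1.to_set
    · intro z z' hne
      by_contra hcon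
      have h3 : cm (Λ × ℕ) ((s z.1).1 ∩ (s z'.1).1) ≠ 0 := hcon
      let t : Pos (cm (Λ × ℕ)) := ⟨_, (s z.1).2.1.inter (s z'.1).2.1, h3⟩
      have ht1 : t ≤ s z.1 := inter_subset_left
      have ht2 : t ≤ s z'.1 := inter_subset_right
      have h4 : t ∈ meets (J z.1 y₀) := by
        have := down_meets ht1 (hsy z.1)
        rwa [show y z.1 = y₀ from z.2] at this
      have h5 : t ∈ meets (J z'.1 y₀) := by
        have := down_meets ht2 (hsy z'.1)
        rwa [show y z'.1 = y₀ from z'.2] at this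
      obtain ⟨_, _, h6⟩ := of_mem_fimp (down_fnot (ht1.trans (hs z.1)) (hJ.2 z.1 z'.1 y₀)) ⟨h4, h5⟩
      exact hne (Subtype.ext h6)
  have hcount : (univ : Set Z).Countable := by
    have : (univ : Set Z) = ⋃ y₀ ∈ Z₀, {z | y z = y₀} := by
      ext z
      simp only [mem_univ, mem_iUnion, true_iff]
      exact ⟨y z, hy z, rfl⟩
    rw [this]
    exact hZ₀.biUnion fun y₀ _ => hfib y₀
  rw [countable_univ_iff] at hcount
  exact absurd (mk_le_aleph0_iff.2 hcount) (not_le.2 hZ)

end Pool.Agent.Helper584.PR
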